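import Mathlib

/-!
Project VC (helper167): the volume conjecture for the double twist knots `K_{p,-p}`, `p ≥ 2`.
Definitions and statements of the lemma jobs.
-/

open Finset Filter Topology

namespace Pool.Agent.Q167.VC

/-- Gaussian binomial coefficient `[n, k]_q`. -/
def qb (q : ℂ) : ℕ → ℕ → ℂ
  | _, 0 => 1
  | 0, _ + 1 => 0
  | n + 1, k + 1 => qb q n k + q ^ (k + 1) * qb q n (k + 1)

/-- Cyclotomic coefficients of a region with `p` full twists: `cf q 0 n = δ_{n,0}` and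
`cf q (p+1) n = ∑_{k ≤ n} q^{k(k+1)} [n,k]_q cf q p k`; so for `p ≥ 1`
`cf q p n = ∑_{n ≥ k_1 ≥ … ≥ k_{p-1} ≥ 0} ∏_i q^{k_i(k_i+1)} [k_{i-1}, k_i]_q`. -/
def cf (q : ℂ) : ℕ → ℕ → ℂ
  | 0, n => if n = 0 then 1 else 0
  | p + 1, n => ∑ k ∈ range (n + 1), q ^ (k * (k + 1)) * qb q n k * cf q p k

/-- `(q;q)_n`. -/
def po (q : ℂ) (n : ℕ) : ℂ := ∏ i ∈ range n, (1 - q ^ (i + 1))

/-- `x = exp(πi/N)`, so that `x^2 = exp(2πi/N)`. -/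
noncomputable def rt (N : ℕ) : ℂ := Complex.exp (Real.pi * Complex.I / N)

/-- `B_1(n) = - cf / x`, and `B_{j+2} = X B_{j+1} - B_j` with the difference operator `X`. -/
noncomputable def Bf (x : ℂ) (p : ℕ) : ℕ → ℕ → ℂ
  | 0, _ => 0
  | 1, n => -cf (x ^ 2) p n / x
  | j + 2, n => ((1 + x ^ (4 * n + 2)) * Bf x p (j + 1) n
      - (1 - x ^ (2 * n)) * Bf x p (j + 1) (n - 1)) / x ^ (2 * n + 1) - Bf x p j n

/-- GEN: the generic formula (Bailey pair). -/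
def S_gen : Prop := ∀ (x : ℂ), x ≠ 0 → ∀ n : ℕ,
  (∀ i : ℕ, 1 ≤ i → i ≤ 2 * n + 1 → x ^ (2 * i) ≠ 1) → ∀ p j : ℕ,
  Bf x p j n = ∑ k ∈ range (n + 1), (-1) ^ k * x ^ ((2 * p + 1) * (k * (k + 1)))
    * (x ^ (j * (2 * k + 1)) - (x⁻¹) ^ (j * (2 * k + 1)))
    * (po (x ^ 2) n / (po (x ^ 2) (n - k) * po (x ^ 2) (n + k + 1)))

/-- CLO: the closing relation. -/
def S_close : Prop := ∀ (x : ℂ), x ≠ 0 → ∀ p n : ℕ, 1 ≤ p →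
  x * Bf x p (p + 1) n - (1 + x ^ (2 * n + 2)) * Bf x p p n
    + x ^ (2 * n + 1) * Bf x p (p - 1) n = 0

/-- The vector `D_j = B_{j+1} - x⁻¹ B_j`, `0 ≤ j < p`. -/
noncomputable def DV (x : ℂ) (p n : ℕ) : Fin p → ℂ :=
  fun j => Bf x p ((j : ℕ) + 1) n - x⁻¹ * Bf x p (j : ℕ) n

/-- The Jacobi matrix of a path with `p` vertices and boundary entries `a` and `w`. -/
def JM (p : ℕ) (a w : ℂ) : Matrix (Fin p) (Fin p) ℂ := fun i j =>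
  (if (i : ℕ) + 1 = (j : ℕ) ∨ (j : ℕ) + 1 = (i : ℕ) then 1 else 0)
    + (if (i : ℕ) = 0 ∧ (j : ℕ) = 0 then a else 0)
    + (if (i : ℕ) + 1 = p ∧ (j : ℕ) + 1 = p then w else 0)

/-- DRE: the exact linear system for `D`. -/
def S_Drec : Prop := ∀ (x : ℂ), x ≠ 0 → ∀ p n : ℕ, 1 ≤ p → 1 ≤ n → ∀ j : Fin p,
  (1 - x ^ (2 * n)) * DV x p (n - 1) j
    = x ^ (2 * n + 1) * ((x ^ (2 * n + 1) + (x⁻¹) ^ (2 * n + 1)) * DV x p n j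
        - (JM p x⁻¹ (x ^ (2 * n + 1))).mulVec (DV x p n) j)

/-- CON: the Jacobi matrix has norm at most two. -/
def S_con : Prop := ∀ (p : ℕ) (a w : ℂ), ‖a‖ ≤ 1 → ‖w‖ ≤ 1 → ∀ v : Fin p → ℂ,
  ∑ i, ‖(JM p a w).mulVec v i‖ ^ 2 ≤ 4 * ∑ i, ‖v i‖ ^ 2

/-- LOW: the terms with `n < N/2` are polynomially bounded. -/
def S_low : Prop := ∀ p N n : ℕ, 2 * n + 2 ≤ N →
  ‖cf (rt N ^ 2) p n‖ * ‖po (rt N ^ 2) n‖ ≤ (N : ℝ) ^ 2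

/-- Weighted Gauss sum. -/
noncomputable def AA (N p j : ℕ) : ℂ :=
  ∑ k ∈ range N, ((N : ℂ) - 1 - 2 * k) * rt N ^ (2 * p * (k * (k + 1)) + j * (2 * k + 1))

/-- Gauss sum. -/
noncomputable def GZ (N p : ℕ) (y : ℤ) : ℂ :=
  ∑ k ∈ range N, rt N ^ (2 * (p : ℤ) * ((k : ℤ) * ((k : ℤ) + 1)) + y * (2 * (k : ℤ) + 1))

/-- INI: the vector at the resonance `n = N - 1`. -/
def S_init : Prop := ∀ N p j : ℕ, 1 ≤ N →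
  (N : ℂ) * Bf (rt N) p j (N - 1) = p * AA N p j - j * GZ N p j

/-- GAU: modulus of the components of the Gauss sums, and a bound for the Gauss sums. -/
def S_gauss : Prop := ∀ N p : ℕ, 1 ≤ N → 1 ≤ p →
  (∀ m : ℤ, ‖∑ y ∈ range (2 * p), GZ N p y
      * Complex.exp (2 * Real.pi * Complex.I
          * ((y : ℂ) ^ 2 / (4 * p * N) - (m : ℂ) * y / (2 * p)))‖ ^ 2 = 2 * p * N)
  ∧ ∀ y : ℤ, ‖GZ N p y‖ ^ 2 ≤ 2 * p * N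

/-- ABL: summation by parts. -/
def S_abl : Prop := ∀ p : ℕ, 2 ≤ p → ∃ C : ℝ, ∀ N : ℕ, 1 ≤ N →
  ‖AA N p p‖ ≤ C * N ∧
  ∀ m : ℕ, 1 ≤ m → m < p →
    ‖(∑ j ∈ Ico 1 p, (Real.sin (Real.pi * m * j / p) : ℂ) * AA N p j)
      - Complex.I * N * (((p : ℂ) - m) / (2 * p))
        * ∑ j ∈ range (2 * p), (Real.cos (Real.pi * m * ((j : ℝ) - p + 1) / p) : ℂ)
            * GZ N p ((j : ℤ) - p + 1)‖ ≤ C * N

/-- GSS: size of the vector at `n = N - 1`. -/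
def S_size : Prop := ∀ p : ℕ, 2 ≤ p → ∃ c C : ℝ, 0 < c ∧ ∃ N0 : ℕ, ∀ N : ℕ, N0 ≤ N →
  (∀ j : ℕ, j ≤ p → ‖Bf (rt N) p j (N - 1)‖ ≤ C * Real.sqrt N) ∧
  ‖Bf (rt N) p p (N - 1)‖ ≤ C ∧
  c * Real.sqrt N ≤ ‖∑ j ∈ range p, (-1) ^ j * (Real.sin (j * Real.pi / p) : ℂ)
      * Bf (rt N) p j (N - 1)‖

/-- The polynomials `P_j(h)`. -/
def PP (h : ℂ) : ℕ → ℂ
  | 0 => 1
  | 1 => h - 1
  | j + 2 => h * PP h (j + 1) - PP h j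

/-- The real relations between `α`, `b` and `c = 2 cos φ` for an eigenvalue
`h = -2 cos (α - i b)`. -/
def EE (p : ℕ) (c α b : ℝ) : Prop :=
  Real.sin (2 * p * α) * Real.sin α = -(Real.sinh (2 * p * b) * Real.sinh b) ∧
  c * (Real.cosh (2 * p * b) * Real.cosh b - Real.cos (2 * p * α) * Real.cos α)
    = 2 * (Real.cos (2 * p * α) * Real.cosh b - Real.cos α * Real.cosh (2 * p * b))

/-- PAR: parametrisation of the eigenvalues. -/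
def S_par : Prop := ∀ p : ℕ, 1 ≤ p → ∀ φ : ℝ, -(Real.pi / 2) ≤ φ → φ < 0 → ∀ h : ℂ,
  PP h p = Complex.exp (φ * Complex.I) * PP h (p - 1) →
  ∃ α b : ℝ, 0 < α ∧ α < Real.pi ∧ 0 < b ∧
    h = -2 * Complex.cos ((α : ℂ) - b * Complex.I) ∧ EE p (2 * Real.cos φ) α b

/-- `|c - h|^2` in terms of `α`, `b`. -/
noncomputable def WW (c α b : ℝ) : ℝ :=
  c ^ 2 + 4 * c * (Real.cos α * Real.cosh b) + 4 * Real.cos α ^ 2 + 4 * Real.sinh b ^ 2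

/-- DOM3: domination, `p ≥ 3`. -/
def S_dom3 : Prop := ∀ p : ℕ, 3 ≤ p → ∀ c α b α₁ b₁ : ℝ, 0 ≤ c → c < 2 → 0 < b → 0 < b₁ →
  EE p c α b → EE p c α₁ b₁ → Real.pi / (2 * p) < α₁ → α₁ < Real.pi / p →
  3 * Real.pi / (2 * p) < α → α < Real.pi → WW c α b < max ((2 - c) ^ 2) (WW c α₁ b₁)

/-- DOM2: domination, `p = 2`. -/
def S_dom2 : Prop := ∀ φ : ℝ, -(Real.pi / 2) ≤ φ → φ < 0 → ∀ h₁ h : ℂ,
  PP h₁ 2 = Complex.exp (φ * Complex.I) * PP h₁ 1 → PP h 2 = Complex.exp (φ * Complex.I) * PP h 1 →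
  h₁.re < 0 → 0 < h.re →
  ‖(2 * Real.cos φ : ℂ) - h‖ < max (2 - 2 * Real.cos φ) ‖(2 * Real.cos φ : ℂ) - h₁‖

/-- `al h ∈ [0, π]` is the angle `α` with `h = -2 cos (α ± i b)`. -/
noncomputable def al (h : ℂ) : ℝ := Real.arccos ((‖h - 2‖ - ‖h + 2‖) / 4)

/-- A continuous family of the `p` eigenvalues, sorted by strips. -/
structure Fam (p : ℕ) (H : Fin p → ℝ → ℂ) : Prop where
  cont : ∀ m, ContinuousOn (H m) (Set.Icc (-(Real.pi / 2)) 0)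
  root : ∀ φ ∈ Set.Icc (-(Real.pi / 2)) 0, ∀ m,
    PP (H m φ) p = Complex.exp (φ * Complex.I) * PP (H m φ) (p - 1)
  strip : ∀ φ ∈ Set.Icc (-(Real.pi / 2)) 0, ∀ m : Fin p,
    |al (H m φ) - ((m : ℝ) + 1) * Real.pi / p| < Real.pi / (2 * p)

/-- ROO: existence of the family. -/
def S_roots : Prop := ∀ p : ℕ, 2 ≤ p → ∃ H : Fin p → ℝ → ℂ, Fam p H

/-- DOM: domination for the family. -/
def S_dom : Prop := ∀ p : ℕ, 2 ≤ p → ∀ H : Fin p → ℝ → ℂ, Fam p H →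
  ∀ φ ∈ Set.Icc (-(Real.pi / 2)) 0, ∀ m₀ m : Fin p, (m₀ : ℕ) = 0 → (m : ℕ) ≠ 0 →
    ‖(2 * Real.cos φ : ℂ) - H m φ‖ < max (2 - 2 * Real.cos φ) ‖(2 * Real.cos φ : ℂ) - H m₀ φ‖

/-- DIF: the differential equation of the eigenvalues. -/
def S_diff : Prop := ∀ p : ℕ, 2 ≤ p → ∀ H : Fin p → ℝ → ℂ, Fam p H →
  ∀ φ ∈ Set.Ioo (-(Real.pi / 2)) 0, ∀ m : Fin p,
    2 * (p : ℂ) * ((2 * Real.cos φ : ℂ) - H m φ) - 2 * Complex.I * Real.sin φ ≠ 0 ∧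
    HasDerivAt (H m) (Complex.I * (4 - H m φ ^ 2)
      / (2 * (p : ℂ) * ((2 * Real.cos φ : ℂ) - H m φ) - 2 * Complex.I * Real.sin φ)) φ

/-- CRO: the crossing point. -/
def S_cross : Prop := ∀ p : ℕ, 2 ≤ p → ∀ H : Fin p → ℝ → ℂ, Fam p H → ∀ m₀ : Fin p,
  (m₀ : ℕ) = 0 → ∃ φ₀ ∈ Set.Ioo (-(Real.pi / 2)) 0,
    (∀ φ ∈ Set.Ico (-(Real.pi / 2)) φ₀,
      ‖(2 * Real.cos φ : ℂ) - H m₀ φ‖ < 2 - 2 * Real.cos φ) ∧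
    (‖(2 * Real.cos φ₀ : ℂ) - H m₀ φ₀‖ = 2 - 2 * Real.cos φ₀) ∧
    (∀ φ ∈ Set.Ioc φ₀ 0, 2 - 2 * Real.cos φ < ‖(2 * Real.cos φ : ℂ) - H m₀ φ‖)

/-- The dilogarithm on `ℂ ∖ [1, ∞)`. -/
noncomputable def Li2 (w : ℂ) : ℂ := -∫ t in (0 : ℝ)..1, Complex.log (1 - t * w) / t

/-- The Bloch-Wigner dilogarithm: the volume of the ideal tetrahedron of shape `w`. -/
noncomputable def BW (w : ℂ) : ℝ := (Li2 w).im + Complex.arg (1 - w) * Real.log ‖w‖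

/-- BWD: derivative along a path. -/
def S_bwd : Prop := ∀ (g : ℝ → ℂ) (g' : ℂ) (u : ℝ), HasDerivAt g g' u → g u ≠ 0 →
  1 - g u ∈ Complex.slitPlane →
  HasDerivAt (fun v => BW (g v))
    (Real.log ‖g u‖ * (-g' / (1 - g u)).im - Real.log ‖1 - g u‖ * (g' / g u).im) u

/-- BWL: boundary behaviour. -/
def S_bwl : Prop := (∀ w : ℂ, 1 - w ∈ Complex.slitPlane → BW (starRingEnd ℂ w) = -BW w) ∧
  Tendsto (fun φ : ℝ => BW (Complex.exp (φ * Complex.I))) (𝓝[<] 0) (𝓝 0)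

/-- VOL: the exponent as a volume. -/
def S_vol : Prop := ∀ p : ℕ, 2 ≤ p → ∀ H : Fin p → ℝ → ℂ, Fam p H → ∀ m₀ : Fin p,
  (m₀ : ℕ) = 0 → ∀ φ ∈ Set.Ioo (-(Real.pi / 2)) 0, ∀ α b : ℝ, 0 < α → α < Real.pi → 0 < b →
  H m₀ φ = -2 * Complex.cos ((α : ℂ) - b * Complex.I) → ∀ z s : ℂ,
  z = Complex.exp (φ * Complex.I) → s = -Complex.exp (-(b + α * Complex.I)) →
  ∫ ψ in φ..0, (Real.log ‖(2 * Real.cos ψ : ℂ) - H m₀ ψ‖ - Real.log (2 - 2 * Real.cos ψ))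
    = BW (z * s) + BW (z / s) - 2 * BW z

/-- The argument of `x^(2n+1)`, shifted by `-2π`. -/
noncomputable def ph (N n : ℕ) : ℝ := 2 * Real.pi * ((n : ℝ) + 1 / 2) / N - 2 * Real.pi

/-- The matrix of eigenvectors. -/
def QM (p : ℕ) (H : Fin p → ℝ → ℂ) (φ : ℝ) : Matrix (Fin p) (Fin p) ℂ :=
  fun j m => PP (H m φ) j

/-- The vector `D` in the moving frame. -/
noncomputable def YV (p : ℕ) (H : Fin p → ℝ → ℂ) (N n : ℕ) : Fin p → ℂ :=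
  ((QM p H (ph N n))⁻¹).mulVec (DV (rt N) p n)

/-- INV: the frame is invertible with uniform bounds. -/
def S_inv : Prop := ∀ p : ℕ, 2 ≤ p → ∀ H : Fin p → ℝ → ℂ, Fam p H →
  (∀ φ ∈ Set.Icc (-(Real.pi / 2)) 0, IsUnit (QM p H φ).det) ∧
  ContinuousOn (QM p H) (Set.Icc (-(Real.pi / 2)) 0) ∧
  ContinuousOn (fun φ => (QM p H φ)⁻¹) (Set.Icc (-(Real.pi / 2)) 0) ∧
  ∃ C : ℝ, ∀ φ ∈ Set.Icc (-(Real.pi / 2)) 0, ∀ i j,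
    ‖QM p H φ i j‖ ≤ C ∧ ‖(QM p H φ)⁻¹ i j‖ ≤ C

/-- FRM: the dynamics in the moving frame. -/
def S_frame : Prop := ∀ p : ℕ, 2 ≤ p → ∀ H : Fin p → ℝ → ℂ, Fam p H → ∀ ε : ℝ, 0 < ε →
  ∃ N0 : ℕ, ∀ N : ℕ, N0 ≤ N → ∀ n : ℕ, 1 ≤ n → n < N → -(Real.pi / 2) ≤ ph N (n - 1) →
    ∃ E : Matrix (Fin p) (Fin p) ℂ, (∀ i j, ‖E i j‖ ≤ ε) ∧ ∀ m : Fin p,
      (1 - rt N ^ (2 * n)) * YV p H N (n - 1) m
        = rt N ^ (2 * n + 1) * (((2 * Real.cos (ph N n) : ℂ) - H m (ph N n)) * YV p H N n m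
            + E.mulVec (YV p H N n) m)

/-- STA: the starting vector in the frame. -/
def S_start : Prop := ∀ p : ℕ, 2 ≤ p → ∀ H : Fin p → ℝ → ℂ, Fam p H → ∃ c C : ℝ, 0 < c ∧
  ∃ N0 : ℕ, ∀ N : ℕ, N0 ≤ N →
    (∀ m : Fin p, ‖YV p H N (N - 1) m‖ ≤ C * Real.sqrt N) ∧
    ∀ m₀ : Fin p, (m₀ : ℕ) = 0 → c * Real.sqrt N ≤ ‖YV p H N (N - 1) m₀‖

/-- RS1: uniform Riemann sums. -/
def S_rs1 : Prop := ∀ F : ℝ → ℝ, ContinuousOn F (Set.Icc (-(Real.pi / 2)) 0) →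
  ∀ ε : ℝ, 0 < ε → ∃ N0 : ℕ, ∀ N : ℕ, N0 ≤ N → ∀ n : ℕ, n < N → -(Real.pi / 2) ≤ ph N n →
    |(1 / (N : ℝ)) * ∑ j ∈ Ioc n (N - 1), F (ph N j)
      - (1 / (2 * Real.pi)) * ∫ φ in (ph N n)..0, F φ| ≤ ε

/-- RS2: the same for the logarithmic singularity. -/
def S_rs2 : Prop := ∀ ε : ℝ, 0 < ε → ∃ N0 : ℕ, ∀ N : ℕ, N0 ≤ N → ∀ n : ℕ, n < N →
  -(Real.pi / 2) ≤ ph N n →
    |(1 / (N : ℝ)) * ∑ j ∈ Ioc n (N - 1), Real.log ‖1 - rt N ^ (2 * j)‖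
      - (1 / (2 * Real.pi)) * ∫ φ in (ph N n)..0, Real.log (2 - 2 * Real.cos φ) / 2| ≤ ε

/-- The coloured Jones polynomial of the double twist knot `K_{p,-p}` (formula of Habiro,
Masbaum, Lauridsen), normalised by `1` on the unknot. -/
noncomputable def cj (p N : ℕ) (q : ℂ) : ℂ :=
  ∑ n ∈ range N, cf q p n * cf q⁻¹ p n
    * ∏ k ∈ Icc 1 n, (q ^ N + (q⁻¹) ^ N - q ^ k - (q⁻¹) ^ k)

/-- The Kashaev invariant of `K_{p,-p}`. -/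
noncomputable def kash (p N : ℕ) : ℂ := cj p N (Complex.exp (2 * Real.pi * Complex.I / N))

/-- MAIN. -/
def S_main : Prop := ∀ p : ℕ, 2 ≤ p → ∃ φ α b : ℝ, -(Real.pi / 2) < φ ∧ φ < 0 ∧
  Real.pi / (2 * p) < α ∧ α < Real.pi / p ∧ 0 < b ∧ ∃ z s : ℂ,
    z = Complex.exp (φ * Complex.I) ∧ s = -Complex.exp (-(b + α * Complex.I)) ∧
    z * (s ^ (2 * p) + s) = s ^ (2 * p + 1) + 1 ∧
    ‖(1 - z * s) * (1 - z / s)‖ = ‖1 - z‖ ^ 2 ∧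
    Tendsto (fun N : ℕ => 1 / (N : ℝ) * Real.log ‖kash p N‖) atTop
      (𝓝 (2 * (BW (z * s) + BW (z / s) - 2 * BW z) / (2 * Real.pi)))

end Pool.Agent.Q167.VC
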